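import Pool.Agent.Helper50.Comm.MagnusCrit
import Pool.Agent.H29.GMove

set_option autoImplicit false

/-! # One step of an elementary move (for helper7, MP_76db9d_al) -/

namespace Pool.Agent.Helper50.Comm

open Pool.Agent.Helper7.Comm Pool.Agent.Helper7.Comm.NC
open Pool.Agent.Helper49.MagnusW
open scoped commutatorElement

section lead

variable {Y : Type*} {G : Type*} [Group G] {ω : Y → ℕ}

/-- `μ g = 1 + f +` terms of weight `> n`, where `f` has order `≥ n`. -/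
def HasLead (ω : Y → ℕ) (μ : G →* (NC Y ℚ)ˣ) (n : ℕ) (g : G) (f : NC Y ℚ) : Prop :=
  OrdGE ω n f ∧ OrdGE ω (n + 1) (((μ g : (NC Y ℚ)ˣ) : NC Y ℚ) - 1 - f)

variable {μ : G →* (NC Y ℚ)ˣ}

theorem HasLead.ord {n : ℕ} {g : G} {f : NC Y ℚ} (h : HasLead ω μ n g f) :
    OrdGE ω n (((μ g : (NC Y ℚ)ˣ) : NC Y ℚ) - 1) := by
  have := (h.2.mono (Nat.le_succ _)).add h.1
  simpa using this

theorem HasLead.of_ord {n : ℕ} {g : G}
    (h : OrdGE ω (n + 1) (((μ g : (NC Y ℚ)ˣ) : NC Y ℚ) - 1)) : HasLead ω μ n g 0 :=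
  ⟨OrdGE.zero, by simpa using h⟩

theorem HasLead.one {n : ℕ} : HasLead ω μ n 1 0 :=
  HasLead.of_ord (by simpa using OrdGE.zero)

theorem HasLead.mul {n : ℕ} (hn : 0 < n) {g h : G} {f f' : NC Y ℚ} (hg : HasLead ω μ n g f)
    (hh : HasLead ω μ n h f') : HasLead ω μ n (g * h) (f + f') := by
  refine ⟨hg.1.add hh.1, ?_⟩
  have e : ((μ (g * h) : (NC Y ℚ)ˣ) : NC Y ℚ) - 1 - (f + f') =
      (((μ g : (NC Y ℚ)ˣ) : NC Y ℚ) - 1) * (((μ h : (NC Y ℚ)ˣ) : NC Y ℚ) - 1) +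
      ((((μ g : (NC Y ℚ)ˣ) : NC Y ℚ) - 1 - f) + (((μ h : (NC Y ℚ)ˣ) : NC Y ℚ) - 1 - f')) := by
    rw [map_mul, Units.val_mul]; noncomm_ring
  rw [e]
  exact ((hg.ord.mul hh.ord).mono (by omega)).add (hg.2.add hh.2)

theorem HasLead.inv {n : ℕ} (hn : 0 < n) {g : G} {f : NC Y ℚ} (hg : HasLead ω μ n g f) :
    HasLead ω μ n g⁻¹ (-f) := by
  refine ⟨hg.1.neg, ?_⟩
  set a : NC Y ℚ := ((μ g : (NC Y ℚ)ˣ) : NC Y ℚ) with ha
  set b : NC Y ℚ := (((μ g)⁻¹ : (NC Y ℚ)ˣ) : NC Y ℚ) with hb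
  have hab : b * a = 1 := Units.inv_mul _
  have e0 : b - 1 = -(b * (a - 1)) := by rw [mul_sub, hab, mul_one]; abel
  have o1 : OrdGE ω n (b - 1) := by
    rw [e0]
    exact (OrdGE.mul_left hg.ord).neg
  have e : ((μ g⁻¹ : (NC Y ℚ)ˣ) : NC Y ℚ) - 1 - -f = -((b - 1) * (a - 1)) - (a - 1 - f) := by
    rw [map_inv, ← hb]
    have : -((b - 1) * (a - 1)) = -(b * a) + a + b - 1 := by noncomm_ring
    rw [this, hab]
    abel
  rw [e]
  exact ((o1.mul hg.ord).mono (by omega)).neg.sub hg.2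

theorem HasLead.pow {n : ℕ} (hn : 0 < n) {g : G} {f : NC Y ℚ} (hg : HasLead ω μ n g f) (k : ℕ) :
    HasLead ω μ n (g ^ k) ((k : ℚ) • f) := by
  induction k with
  | zero => simpa using HasLead.one
  | succ k ih =>
    rw [pow_succ]
    have := ih.mul hn hg
    have e : ((k : ℚ) • f + f) = (((k + 1 : ℕ) : ℚ) • f) := by
      push_cast
      rw [add_smul, one_smul]
    rwa [e] at this

theorem HasLead.zpow {n : ℕ} (hn : 0 < n) {g : G} {f : NC Y ℚ} (hg : HasLead ω μ n g f) (k : ℤ) :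
    HasLead ω μ n (g ^ k) ((k : ℚ) • f) := by
  obtain ⟨k, rfl | rfl⟩ := k.eq_nat_or_neg
  · simpa using hg.pow hn k
  · have := (hg.pow hn k).inv hn
    simpa using this

theorem HasLead.list_prod {κ : Type*} {n : ℕ} (hn : 0 < n) (L : List κ) (g : κ → G)
    (f : κ → NC Y ℚ) (h : ∀ k ∈ L, HasLead ω μ n (g k) (f k)) :
    HasLead ω μ n (L.map g).prod (L.map f).sum := by
  induction L with
  | nil => simpa using HasLead.one
  | cons k L ih =>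
    simp only [List.map_cons, List.prod_cons, List.sum_cons]
    exact (h k (by simp)).mul hn (ih fun k hk => h k (by simp [hk]))

theorem OrdGE.lie {p q : ℕ} {f g : NC Y ℚ} (hf : OrdGE ω p f) (hg : OrdGE ω q g) :
    OrdGE ω (p + q) ⁅f, g⁆ := by
  rw [Ring.lie_def]
  refine (hf.mul hg).sub ?_
  rw [add_comm]
  exact hg.mul hf

theorem ord_one_of_nil (hω : ∀ y, 0 < ω y) {f : NC Y ℚ} (h : f [] = 0) : OrdGE ω 1 f := by
  intro w hw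
  cases w with
  | nil => exact h
  | cons a w =>
    rw [wt_cons] at hw
    have := hω a
    omega

theorem HasLead.comm (hω : ∀ y, 0 < ω y) (h1 : ∀ g, ((μ g : (NC Y ℚ)ˣ) : NC Y ℚ) [] = 1)
    {p q : ℕ} {g h : G} {f f' : NC Y ℚ} (hg : HasLead ω μ p g f) (hh : HasLead ω μ q h f') :
    HasLead ω μ (p + q) ⁅g, h⁆ ⁅f, f'⁆ := by
  refine ⟨OrdGE.lie hg.1 hh.1, ?_⟩
  set a : NC Y ℚ := ((μ g : (NC Y ℚ)ˣ) : NC Y ℚ) - 1 with ha
  set b : NC Y ℚ := ((μ h : (NC Y ℚ)ˣ) : NC Y ℚ) - 1 with hb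
  set u : NC Y ℚ := (((μ g)⁻¹ : (NC Y ℚ)ˣ) : NC Y ℚ) * (((μ h)⁻¹ : (NC Y ℚ)ˣ) : NC Y ℚ) with hu
  have e1 : ((μ ⁅g, h⁆ : (NC Y ℚ)ˣ) : NC Y ℚ) - 1 = ⁅a, b⁆ * u := by
    have e : ⁅a, b⁆ = ((μ g : (NC Y ℚ)ˣ) : NC Y ℚ) * ((μ h : (NC Y ℚ)ˣ) : NC Y ℚ) -
        ((μ h : (NC Y ℚ)ˣ) : NC Y ℚ) * ((μ g : (NC Y ℚ)ˣ) : NC Y ℚ) := by
      rw [Ring.lie_def, ha, hb]; noncomm_ring
    rw [map_commutatorElement, commutatorElement_def, e, sub_mul]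
    have e2 : ((μ h : (NC Y ℚ)ˣ) : NC Y ℚ) * ((μ g : (NC Y ℚ)ˣ) : NC Y ℚ) * u = 1 := by
      rw [hu, ← Units.val_mul, ← Units.val_mul, ← Units.val_mul]
      simp
    rw [e2, hu]
    simp only [Units.val_mul, mul_assoc]
  have ou : OrdGE ω 1 (u - 1) := by
    refine ord_one_of_nil hω ?_
    rw [NC.sub_apply, NC.one_nil, hu, NC.mul_nil, ← map_inv, ← map_inv, h1, h1]
    norm_num
  have e3 : ((μ ⁅g, h⁆ : (NC Y ℚ)ˣ) : NC Y ℚ) - 1 - ⁅f, f'⁆ =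
      ⁅a, b⁆ * (u - 1) + (⁅a - f, b⁆ + ⁅f, b - f'⁆) := by
    rw [e1]
    simp only [Ring.lie_def]
    noncomm_ring
  rw [e3]
  refine ((OrdGE.lie hg.ord hh.ord).mul ou).add (OrdGE.add ?_ ?_)
  · have := OrdGE.lie hg.2 hh.ord
    rwa [show p + 1 + q = p + q + 1 by omega] at this
  · have := OrdGE.lie hg.1 hh.2
    rwa [show p + (q + 1) = p + q + 1 by omega] at this

/-- Iterated group commutators. -/
def cg (z : Fin 2 → G) : List (Fin 2) → G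
  | [] => 1
  | [k] => z k
  | k :: l :: W => ⁅z k, cg z (l :: W)⁆

theorem hasLead_cg (hω : ∀ y, 0 < ω y) (h1 : ∀ g, ((μ g : (NC Y ℚ)ˣ) : NC Y ℚ) [] = 1)
    {ω' : Fin 2 → ℕ} {z : Fin 2 → G} {h : Fin 2 → NC Y ℚ} (h0 : ∀ k, h k [] = 0)
    (hz : ∀ k, HasLead ω μ (ω' k) (z k) (h k)) (w : List (Fin 2)) (hw : w ≠ []) :
    HasLead ω μ (wt ω' w) (cg z w) (subst h (rb w : NC (Fin 2) ℚ)) := by
  induction w with
  | nil => exact absurd rfl hw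
  | cons k W ih =>
    cases W with
    | nil =>
      have e : wt ω' [k] = ω' k := by simp [wt]
      rw [e, cg, rb, subst_letter h h0]
      exact hz k
    | cons l W =>
      have e : wt ω' (k :: l :: W) = ω' k + wt ω' (l :: W) := wt_cons _ _ _
      have e2 : subst h (rb (k :: l :: W) : NC (Fin 2) ℚ) = ⁅h k, subst h (rb (l :: W) : NC (Fin 2) ℚ)⁆ := by
        rw [rb, Ring.lie_def, Ring.lie_def]
        have := (substHom h h0).map_sub ((NC.letter k : NC (Fin 2) ℚ) * rb (l :: W))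
          (rb (l :: W) * (NC.letter k : NC (Fin 2) ℚ))
        rw [map_mul, map_mul] at this
        change subst h _ = subst h _ * subst h _ - subst h _ * subst h _ at this
        rw [subst_letter h h0] at this
        exact this
      rw [e, cg, e2]
      exact (hz k).comm hω h1 (ih (by simp))

theorem subst_sum {ι κ : Type*} [Fintype ι] {h : ι → NC Y ℚ} (h0 : ∀ k, h k [] = 0)
    (S : Finset κ) (f : κ → NC ι ℚ) (c : κ → ℚ) :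
    subst h (∑ w ∈ S, c w • f w) = ∑ w ∈ S, c w • subst h (f w) := by
  have := map_sum (substHom h h0) (fun w => c w • f w) S
  change subst h _ = ∑ w ∈ S, subst h _ at this
  rw [this]
  exact Finset.sum_congr rfl fun w _ => subst_smul h h0 _ _

theorem hasLead_word (hω : ∀ y, 0 < ω y) (h1 : ∀ g, ((μ g : (NC Y ℚ)ˣ) : NC Y ℚ) [] = 1)
    {ω' : Fin 2 → ℕ} {z : Fin 2 → G} {h : Fin 2 → NC Y ℚ} (h0 : ∀ k, h k [] = 0)
    (hz : ∀ k, HasLead ω μ (ω' k) (z k) (h k)) {n : ℕ} (hn : 0 < n) (S : Finset (List (Fin 2)))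
    (A : List (Fin 2) → ℤ) (hA : ∀ w ∈ S, A w ≠ 0 → wt ω' w = n) :
    HasLead ω μ n (S.toList.map fun w => cg z w ^ A w).prod
      (subst h (∑ w ∈ S, (A w : ℚ) • (rb w : NC (Fin 2) ℚ))) := by
  rw [subst_sum h0, ← Finset.sum_map_toList]
  refine HasLead.list_prod hn _ _ _ fun w hw => ?_
  rw [Finset.mem_toList] at hw
  by_cases hAw : A w = 0
  · rw [hAw]
    simpa using HasLead.one
  · have hwt := hA w hw hAw
    refine HasLead.zpow hn ?_ _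
    rw [← hwt]
    refine hasLead_cg hω h1 h0 hz w ?_
    rintro rfl
    rw [wt_nil] at hwt
    omega

theorem perturb (hω : ∀ y, 0 < ω y) (h1 : ∀ g, ((μ g : (NC Y ℚ)ˣ) : NC Y ℚ) [] = 1)
    {i j l : ℕ} (hl : 0 < l) {a b h₁ h₂ : G} {α β f₁ f₂ : NC Y ℚ}
    (ha : HasLead ω μ i a α) (hb : HasLead ω μ j b β) (hh₁ : HasLead ω μ (i + l) h₁ f₁)
    (hh₂ : HasLead ω μ (j + l) h₂ f₂) (hf : ⁅α, f₂⁆ + ⁅f₁, β⁆ = 0) :
    OrdGE ω (i + j + l + 1)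
      (((μ (⁅a * h₁, b * h₂⁆ * ⁅a, b⁆⁻¹) : (NC Y ℚ)ˣ) : NC Y ℚ) - 1) := by
  set A : (NC Y ℚ)ˣ := μ a with hA
  set B : (NC Y ℚ)ˣ := μ b with hB
  set X : (NC Y ℚ)ˣ := μ h₁ with hX
  set H : (NC Y ℚ)ˣ := μ h₂ with hH
  set ξ : NC Y ℚ := (X : NC Y ℚ) - 1 with hξ
  set η : NC Y ℚ := (H : NC Y ℚ) - 1 with hη
  have eμ : μ (⁅a * h₁, b * h₂⁆ * ⁅a, b⁆⁻¹) =
      A * X * (B * H) * (A * X)⁻¹ * (B * H)⁻¹ * (A * B * A⁻¹ * B⁻¹)⁻¹ := by
    simp only [commutatorElement_def, map_mul, map_inv, hA, hB, hX, hH]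
  set V : (NC Y ℚ)ˣ := (B * H * (A * X))⁻¹ * (A * B * A⁻¹ * B⁻¹)⁻¹ with hV
  have e1 : ((μ (⁅a * h₁, b * h₂⁆ * ⁅a, b⁆⁻¹) : (NC Y ℚ)ˣ) : NC Y ℚ) - 1 =
      (A : NC Y ℚ) * (((X : NC Y ℚ) * B * H - B * ((A⁻¹ : (NC Y ℚ)ˣ) : NC Y ℚ) * H * A * X)) *
        (V : NC Y ℚ) := by
    have e2 : μ (⁅a * h₁, b * h₂⁆ * ⁅a, b⁆⁻¹) = A * (X * B * H) * V := by
      rw [eμ, hV]; group
    have e3 : (1 : (NC Y ℚ)ˣ) = A * (B * A⁻¹ * H * A * X) * V := by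
      rw [hV]; group
    have e4 : (1 : NC Y ℚ) = ((A * (B * A⁻¹ * H * A * X) * V : (NC Y ℚ)ˣ) : NC Y ℚ) := by
      rw [← e3]; rfl
    rw [e2]
    conv_lhs => rw [e4]
    push_cast
    noncomm_ring
  rw [e1]
  refine OrdGE.mul_right (OrdGE.mul_left ?_)
  have e5 : (X : NC Y ℚ) * B * H - B * ((A⁻¹ : (NC Y ℚ)ˣ) : NC Y ℚ) * H * A * X =
      (⁅ξ, (B : NC Y ℚ) - 1⁆ + (B : NC Y ℚ) * (((A⁻¹ : (NC Y ℚ)ˣ) : NC Y ℚ) * ⁅(A : NC Y ℚ) - 1, η⁆)) +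
        (ξ * B * η - B * ((A⁻¹ : (NC Y ℚ)ˣ) : NC Y ℚ) * η * A * ξ) := by
    have eX : (X : NC Y ℚ) = 1 + ξ := by rw [hξ]; abel
    have eH : (H : NC Y ℚ) = 1 + η := by rw [hη]; abel
    have eA : ((A⁻¹ : (NC Y ℚ)ˣ) : NC Y ℚ) * (A : NC Y ℚ) = 1 := Units.inv_mul _
    rw [eX, eH]
    simp only [Ring.lie_def]
    have e6 : (B : NC Y ℚ) * ((A⁻¹ : (NC Y ℚ)ˣ) : NC Y ℚ) * (1 + η) * A * (1 + ξ) =
        B * (((A⁻¹ : (NC Y ℚ)ˣ) : NC Y ℚ) * A) + B * (((A⁻¹ : (NC Y ℚ)ˣ) : NC Y ℚ) * A) * ξ +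
        B * ((A⁻¹ : (NC Y ℚ)ˣ) : NC Y ℚ) * η * A + B * ((A⁻¹ : (NC Y ℚ)ˣ) : NC Y ℚ) * η * A * ξ := by
      noncomm_ring
    have e7 : (B : NC Y ℚ) * (((A⁻¹ : (NC Y ℚ)ˣ) : NC Y ℚ) * (((A : NC Y ℚ) - 1) * η - η * ((A : NC Y ℚ) - 1))) =
        B * (((A⁻¹ : (NC Y ℚ)ˣ) : NC Y ℚ) * A) * η - B * ((A⁻¹ : (NC Y ℚ)ˣ) : NC Y ℚ) * η * A := by
      noncomm_ring
    rw [e6, e7, eA]
    noncomm_ring
  rw [e5]
  have oξ : OrdGE ω (i + l) ξ := hh₁.ord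
  have oη : OrdGE ω (j + l) η := hh₂.ord
  have o1 : OrdGE ω (i + j + l + 1) (ξ * (B : NC Y ℚ) * η) := by
    have : OrdGE ω ((i + l) + (j + l)) (ξ * (B : NC Y ℚ) * η) := (OrdGE.mul_right oξ).mul oη
    exact this.mono (by omega)
  have o2 : OrdGE ω (i + j + l + 1) ((B : NC Y ℚ) * ((A⁻¹ : (NC Y ℚ)ˣ) : NC Y ℚ) * η * (A : NC Y ℚ) * ξ) := by
    have : OrdGE ω ((j + l) + (i + l)) ((B : NC Y ℚ) * ((A⁻¹ : (NC Y ℚ)ˣ) : NC Y ℚ) * η * (A : NC Y ℚ) * ξ) :=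
      (OrdGE.mul_right (OrdGE.mul_left oη)).mul oξ
    exact this.mono (by omega)
  refine OrdGE.add ?_ (o1.sub o2)
  -- the main terms
  have hBA : OrdGE ω 1 ((B : NC Y ℚ) * ((A⁻¹ : (NC Y ℚ)ˣ) : NC Y ℚ) - 1) := by
    refine ord_one_of_nil hω ?_
    rw [NC.sub_apply, NC.one_nil, NC.mul_nil, hA, hB, ← map_inv, h1, h1]
    norm_num
  have e8 : ⁅ξ, (B : NC Y ℚ) - 1⁆ + (B : NC Y ℚ) * (((A⁻¹ : (NC Y ℚ)ˣ) : NC Y ℚ) * ⁅(A : NC Y ℚ) - 1, η⁆) =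
      ((B : NC Y ℚ) * ((A⁻¹ : (NC Y ℚ)ˣ) : NC Y ℚ) - 1) * ⁅(A : NC Y ℚ) - 1, η⁆ +
      ((⁅ξ - f₁, (B : NC Y ℚ) - 1⁆ + ⁅f₁, (B : NC Y ℚ) - 1 - β⁆) +
      (⁅(A : NC Y ℚ) - 1 - α, η⁆ + ⁅α, η - f₂⁆)) + (⁅α, f₂⁆ + ⁅f₁, β⁆) := by
    simp only [Ring.lie_def]
    noncomm_ring
  rw [e8, hf, add_zero]
  have oA : OrdGE ω i ((A : NC Y ℚ) - 1) := ha.ord
  have oB : OrdGE ω j ((B : NC Y ℚ) - 1) := hb.ord
  refine OrdGE.add ?_ (OrdGE.add (OrdGE.add ?_ ?_) (OrdGE.add ?_ ?_))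
  · exact (hBA.mul (OrdGE.lie oA oη)).mono (by omega)
  · exact (OrdGE.lie hh₁.2 oB).mono (by omega)
  · exact (OrdGE.lie hh₁.1 hb.2).mono (by omega)
  · exact (OrdGE.lie ha.2 oη).mono (by omega)
  · exact (OrdGE.lie ha.1 hh₂.2).mono (by omega)

end lead

theorem subst_letters (f : NC (Fin 2) ℚ) :
    subst (fun k => (NC.letter k : NC (Fin 2) ℚ)) f = f := by
  have h0 : ∀ k, (NC.letter k : NC (Fin 2) ℚ) [] = 0 := fun k => letter_nil k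
  refine subst_unique_aux (fun k => (NC.letter k : NC (Fin 2) ℚ)) h0 (α := NC (Fin 2) ℚ)
    (fun p => p []) (fun k p => D k p) (fun p => subst _ p) (fun p => p) ?_ ?_ f
  · intro f
    exact subst_eq _ h0 f
  · intro f
    ext w
    cases w with
    | nil => simp [letter_nil]
    | cons a w =>
      rw [NC.add_apply, NC.sum_apply]
      have : ∀ k : Fin 2, ((NC.letter k : NC (Fin 2) ℚ) * D k f) (a :: w) =
          if a = k then f (a :: w) else 0 := by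
        intro k
        rw [NC.mul_cons, letter_nil, zero_mul, zero_add, D_letter]
        split_ifs with h
        · rw [one_mul, h]; rfl
        · rw [zero_mul]; rfl
      simp only [this]
      simp

theorem nstep (r i j l W : ℕ) (hi : 0 < i) (hj : 0 < j) (hl : 0 < l)
    (E : FreeGroup (Fin r) →* (NC (Fin r) ℚ)ˣ)
    (hE : ∀ g n, g ∈ Gam (fun _ : Fin r => 1) n ↔ OrdGE (fun _ => 1) n (((E g : (NC (Fin r) ℚ)ˣ) : NC (Fin r) ℚ) - 1))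
    (S : Finset (List (Fin 2))) (A B : List (Fin 2) → ℤ)
    (hA : ∀ w ∈ S, A w ≠ 0 → wt ![i, j] w = i + l) (hB : ∀ w ∈ S, B w ≠ 0 → wt ![i, j] w = j + l)
    (hAB : ⁅(letter 0 : NC (Fin 2) ℚ), ∑ w ∈ S, (B w : ℚ) • (rb w : NC (Fin 2) ℚ)⁆ +
      ⁅∑ w ∈ S, (A w : ℚ) • (rb w : NC (Fin 2) ℚ), (letter 1 : NC (Fin 2) ℚ)⁆ = 0)
    (x y : FreeGroup (Fin r)) (hx : OrdGE (fun _ => 1) i (((E x : (NC (Fin r) ℚ)ˣ) : NC (Fin r) ℚ) - 1))
    (hy : OrdGE (fun _ => 1) j (((E y : (NC (Fin r) ℚ)ˣ) : NC (Fin r) ℚ) - 1)) :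
    ∃ x' y' : FreeGroup (Fin r), ⁅x', y'⁆ * ⁅x, y⁆⁻¹ ∈ Gam (fun _ : Fin r => 1) W ∧
      OrdGE (fun _ => 1) (i + l + 1) (((E x' : (NC (Fin r) ℚ)ˣ) : NC (Fin r) ℚ) - ((E x : (NC (Fin r) ℚ)ˣ) : NC (Fin r) ℚ) -
        subst ![comp i ((E x : (NC (Fin r) ℚ)ˣ) : NC (Fin r) ℚ), comp j ((E y : (NC (Fin r) ℚ)ˣ) : NC (Fin r) ℚ)]
          (∑ w ∈ S, (A w : ℚ) • (rb w : NC (Fin 2) ℚ))) ∧
      OrdGE (fun _ => 1) (j + l + 1) (((E y' : (NC (Fin r) ℚ)ˣ) : NC (Fin r) ℚ) - ((E y : (NC (Fin r) ℚ)ˣ) : NC (Fin r) ℚ) -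
        subst ![comp i ((E x : (NC (Fin r) ℚ)ˣ) : NC (Fin r) ℚ), comp j ((E y : (NC (Fin r) ℚ)ˣ) : NC (Fin r) ℚ)]
          (∑ w ∈ S, (B w : ℚ) • (rb w : NC (Fin 2) ℚ))) := by
  set ω' : Fin 2 → ℕ := ![i, j] with hω'
  have hω'0 : ∀ k, 0 < ω' k := by
    intro k
    fin_cases k
    · exact hi
    · exact hj
  -- the first hom
  set M : FreeGroup (Fin 2) →* (NC (Fin 2) ℚ)ˣ := mag ℚ with hM
  have hMμ : ∀ k, OrdGE ω' (ω' k + 1) ((M (FreeGroup.of k) : NC (Fin 2) ℚ) - 1 - NC.letter k) := by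
    intro k
    rw [hM, mag_of]
    have : (1 + NC.letter k - 1 - NC.letter k : NC (Fin 2) ℚ) = 0 := by abel
    rw [this]
    exact OrdGE.zero
  have hM1 : ∀ g, ((M g : (NC (Fin 2) ℚ)ˣ) : NC (Fin 2) ℚ) [] = 1 := fun g => mu_nil hMμ g
  have hMlead : ∀ k, HasLead ω' M (ω' k) (FreeGroup.of k) (NC.letter k) :=
    fun k => ⟨(homog_letter (R := ℚ) ω' k).ordGE, hMμ k⟩
  -- the second hom
  set φ : FreeGroup (Fin 2) →* FreeGroup (Fin r) := FreeGroup.lift ![x, y] with hφ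
  have hφ0 : φ (FreeGroup.of 0) = x := by simp [hφ]
  have hφ1 : φ (FreeGroup.of 1) = y := by simp [hφ]
  have hE1 : ∀ g, ((E g : (NC (Fin r) ℚ)ˣ) : NC (Fin r) ℚ) [] = 1 := by
    intro g
    have h1 : g ∈ Gam (fun _ : Fin r => 1) 1 := by rw [(gam_isNSeries _).one]; trivial
    have h2 := (hE g 1).mp h1 [] (by rw [wt_nil]; exact one_pos)
    rw [NC.sub_apply, NC.one_nil, sub_eq_zero] at h2
    exact h2
  set h : Fin 2 → NC (Fin r) ℚ := ![comp i ((E x : (NC (Fin r) ℚ)ˣ) : NC (Fin r) ℚ),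
    comp j ((E y : (NC (Fin r) ℚ)ˣ) : NC (Fin r) ℚ)] with hh
  have hlead : ∀ (g : FreeGroup (Fin r)) (n : ℕ), 0 < n →
      OrdGE (fun _ => 1) n (((E g : (NC (Fin r) ℚ)ˣ) : NC (Fin r) ℚ) - 1) →
      HasLead (fun _ => 1) E n g (comp n ((E g : (NC (Fin r) ℚ)ˣ) : NC (Fin r) ℚ)) := by
    intro g n hn hg
    refine ⟨fun w hw => ?_, fun w hw => ?_⟩
    · rw [wt_one] at hw
      rw [comp_apply, if_neg (by omega)]
    · rw [wt_one] at hw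
      rw [NC.sub_apply, comp_apply]
      split_ifs with hwn
      · cases w with
        | nil => simp at hwn; omega
        | cons a w => rw [NC.sub_apply, NC.one_cons]; simp
      · rw [hg w (by rw [wt_one]; omega), sub_zero]
  have h0 : ∀ k, h k [] = 0 := by
    intro k
    fin_cases k
    · change comp i _ [] = 0
      rw [comp_apply, if_neg (by simp; omega)]
    · change comp j _ [] = 0
      rw [comp_apply, if_neg (by simp; omega)]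
  have hElead : ∀ k, HasLead (fun _ => 1) (E.comp φ) (ω' k) (FreeGroup.of k) (h k) := by
    intro k
    fin_cases k
    · change HasLead (fun _ => 1) (E.comp φ) i (FreeGroup.of 0) (comp i _)
      have := hlead x i hi hx
      unfold HasLead at this ⊢
      rwa [MonoidHom.comp_apply, hφ0]
    · change HasLead (fun _ => 1) (E.comp φ) j (FreeGroup.of 1) (comp j _)
      have := hlead y j hj hy
      unfold HasLead at this ⊢
      rwa [MonoidHom.comp_apply, hφ1]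
  -- the words
  set h₁ : FreeGroup (Fin 2) := (S.toList.map fun w => cg FreeGroup.of w ^ A w).prod with hh₁
  set h₂ : FreeGroup (Fin 2) := (S.toList.map fun w => cg FreeGroup.of w ^ B w).prod with hh₂
  have m1 := hasLead_word (z := FreeGroup.of) hω'0 hM1 (fun k => letter_nil k) hMlead
    (show 0 < i + l by omega) S A hA
  have m2 := hasLead_word (z := FreeGroup.of) hω'0 hM1 (fun k => letter_nil k) hMlead
    (show 0 < j + l by omega) S B hB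
  rw [subst_letters, ← hh₁] at m1
  rw [subst_letters, ← hh₂] at m2
  have hEφ1 : ∀ g, (((E.comp φ) g : (NC (Fin r) ℚ)ˣ) : NC (Fin r) ℚ) [] = 1 := fun g => hE1 _
  have q1 := hasLead_word (z := FreeGroup.of) (ω := fun _ : Fin r => 1) (μ := E.comp φ)
    (fun _ => one_pos) hEφ1 h0 hElead (show 0 < i + l by omega) S A hA
  have q2 := hasLead_word (z := FreeGroup.of) (ω := fun _ : Fin r => 1) (μ := E.comp φ)
    (fun _ => one_pos) hEφ1 h0 hElead (show 0 < j + l by omega) S B hB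
  rw [← hh₁] at q1
  rw [← hh₂] at q2
  have g1 : h₁ ∈ Gam ω' (i + l) := magnus_weighted ω' hω'0 M hMμ _ _ m1.ord
  have g2 : h₂ ∈ Gam ω' (j + l) := magnus_weighted ω' hω'0 M hMμ _ _ m2.ord
  have g3 : ⁅FreeGroup.of 0 * h₁, FreeGroup.of 1 * h₂⁆ *
      ⁅FreeGroup.of (0 : Fin 2), FreeGroup.of 1⁆⁻¹ ∈ Gam ω' (i + j + l + 1) := by
    refine magnus_weighted ω' hω'0 M hMμ _ _ ?_
    exact perturb hω'0 hM1 hl (hMlead 0) (hMlead 1) m1 m2 hAB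
  obtain ⟨k₁, k₂, hk₁, hk₂, hk⟩ := Pool.Agent.H29.GMove.gmove i j l W hi hj hl
    (gam_isNSeries _) (fun k => of_mem_gam _ k) h₁ h₂ g1 g2 g3
  have hcomap : ∀ n, Gam ω' n ≤ (Gam (fun _ : Fin r => 1) n).comap φ := by
    intro n
    refine gam_le_comap ω' φ _ (gam_isNSeries _) ?_ n
    intro k
    fin_cases k
    · change φ (FreeGroup.of 0) ∈ Gam _ i
      rw [hφ0, hE]
      exact hx
    · change φ (FreeGroup.of 1) ∈ Gam _ j
      rw [hφ1, hE]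
      exact hy
  have r1 : HasLead (fun _ : Fin r => 1) (E.comp φ) (i + l) k₁ 0 :=
    HasLead.of_ord ((hE _ _).mp (hcomap _ hk₁))
  have r2 : HasLead (fun _ : Fin r => 1) (E.comp φ) (j + l) k₂ 0 :=
    HasLead.of_ord ((hE _ _).mp (hcomap _ hk₂))
  have s1 := q1.mul (by omega) r1
  have s2 := q2.mul (by omega) r2
  rw [add_zero] at s1 s2
  have fin : ∀ (n : ℕ) (z : FreeGroup (Fin r)) (k : Fin 2) (hφz : φ (FreeGroup.of k) = z)
      (t : FreeGroup (Fin 2)) (F : NC (Fin r) ℚ)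
      (ht : HasLead (fun _ : Fin r => 1) (E.comp φ) n t F),
      OrdGE (fun _ => 1) (n + 1) (((E (φ (FreeGroup.of k * t)) : (NC (Fin r) ℚ)ˣ) : NC (Fin r) ℚ) -
        ((E z : (NC (Fin r) ℚ)ˣ) : NC (Fin r) ℚ) - F) := by
    intro n z k hφz t F ht
    have e : ((E (φ (FreeGroup.of k * t)) : (NC (Fin r) ℚ)ˣ) : NC (Fin r) ℚ) -
        ((E z : (NC (Fin r) ℚ)ˣ) : NC (Fin r) ℚ) - F =
        (((E z : (NC (Fin r) ℚ)ˣ) : NC (Fin r) ℚ) - 1) *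
          ((((E.comp φ) t : (NC (Fin r) ℚ)ˣ) : NC (Fin r) ℚ) - 1) +
        ((((E.comp φ) t : (NC (Fin r) ℚ)ˣ) : NC (Fin r) ℚ) - 1 - F) := by
      rw [map_mul, map_mul, hφz, Units.val_mul, MonoidHom.comp_apply]
      noncomm_ring
    rw [e]
    refine OrdGE.add ?_ ht.2
    have o1 : OrdGE (fun _ : Fin r => 1) 1 (((E z : (NC (Fin r) ℚ)ˣ) : NC (Fin r) ℚ) - 1) := by
      refine ord_one_of_nil (fun _ => one_pos) ?_
      rw [NC.sub_apply, hE1, NC.one_nil, sub_self]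
    have := o1.mul ht.ord
    rwa [add_comm] at this
  refine ⟨φ (FreeGroup.of 0 * (h₁ * k₁)), φ (FreeGroup.of 1 * (h₂ * k₂)), ?_, ?_, ?_⟩
  · have := hcomap _ hk
    rw [Subgroup.mem_comap, map_mul, map_inv, map_commutatorElement, map_commutatorElement,
      hφ0, hφ1] at this
    exact this
  · exact fin (i + l) x 0 hφ0 _ _ s1
  · exact fin (j + l) y 1 hφ1 _ _ s2

end Pool.Agent.Helper50.Comm
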