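import Pool.Agent.Helper7.Comm.Brackets
import Pool.Agent.Helper49.MagnusWeighted

set_option autoImplicit false

/-! # Magnus criteria (for helper7, MP_76db9d_al) -/

namespace Pool.Agent.Helper50.Comm

open Pool.Agent.Helper7.Comm Pool.Agent.Helper7.Comm.NC
open Pool.Agent.Helper49.MagnusW
open scoped commutatorElement

theorem wt_one {X : Type*} (w : List X) : wt (fun _ : X => 1) w = w.length := by
  simp [wt]

theorem expS_sub_letter {X : Type} [DecidableEq X] (x : X) :
    OrdGE (fun _ : X => 1) 2 (expS x - 1 - NC.letter x) := by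
  intro w hw
  rw [wt_one] at hw
  match w, hw with
  | [], _ => simp [expS, NC.letter_nil]
  | [y], _ =>
    simp only [expS, NC.sub_apply, NC.mk_apply, NC.one_cons, NC.letter, List.length_singleton,
      List.replicate_one, List.cons.injEq, and_true]
    split_ifs <;> simp
  | _ :: _ :: _, hw => simp at hw

theorem mem_gam_iff_exp (r n : ℕ) (E : FreeGroup (Fin r) →* (NC (Fin r) ℚ)ˣ)
    (hof : ∀ x, ((E (FreeGroup.of x) : (NC (Fin r) ℚ)ˣ) : NC (Fin r) ℚ) = expS x)
    (g : FreeGroup (Fin r)) :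
    g ∈ Gam (fun _ : Fin r => 1) n ↔
      OrdGE (fun _ => 1) n (((E g : (NC (Fin r) ℚ)ˣ) : NC (Fin r) ℚ) - 1) := by
  have hμ : ∀ x, OrdGE (fun _ : Fin r => 1) ((fun _ : Fin r => 1) x + 1)
      ((E (FreeGroup.of x) : NC (Fin r) ℚ) - 1 - NC.letter x) := by
    intro x
    rw [hof]
    exact expS_sub_letter x
  constructor
  · intro hg
    exact ordGE_of_mem_gam' (fun _ => one_pos) hμ hg
  · intro hg
    exact magnus_weighted _ (fun _ => one_pos) E hμ n g hg

/-- Coefficientwise cast. -/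
def castHom (X : Type) : NC X ℤ →+* NC X ℚ where
  toFun f := ⟨fun w => (f w : ℚ)⟩
  map_zero' := by ext w; simp
  map_one' := by
    ext w
    cases w <;> simp
  map_add' f g := by ext w; simp
  map_mul' f g := by
    ext w
    simp only [NC.mk_apply, NC.mul_apply]
    push_cast
    rfl

theorem castHom_apply {X : Type} (f : NC X ℤ) (w : List X) : castHom X f w = (f w : ℚ) := rfl

theorem mag_cast {X : Type} [DecidableEq X] (g : FreeGroup X) (w : List X) :
    ((mag ℚ g : (NC X ℚ)ˣ) : NC X ℚ) w = ((((mag ℤ g : (NC X ℤ)ˣ) : NC X ℤ) w : ℤ) : ℚ) := by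
  have h : (Units.map (castHom X : NC X ℤ →* NC X ℚ)).comp (mag ℤ) = mag ℚ := by
    ext1 x
    ext1
    change castHom X ((mag ℤ (FreeGroup.of x) : (NC X ℤ)ˣ) : NC X ℤ) = _
    rw [mag_of, mag_of, map_add, map_one]
    congr 1
    ext w
    rw [castHom_apply]
    simp only [NC.letter, NC.mk_apply]
    split_ifs <;> simp
  rw [← h]
  rfl

theorem hmem (r c : ℕ) (g : FreeGroup (Fin r)) :
    g ∈ (⊤ : Subgroup (FreeGroup (Fin r))).lowerCentralSeries c ↔
      ∀ v : List (Fin r), v ≠ [] → v.length ≤ c →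
        ((mag ℤ g : (NC (Fin r) ℤ)ˣ) : NC (Fin r) ℤ) v = 0 := by
  have hμ : ∀ x, OrdGE (fun _ : Fin r => 1) ((fun _ : Fin r => 1) x + 1)
      ((mag ℚ (FreeGroup.of x) : NC (Fin r) ℚ) - 1 - NC.letter x) := by
    intro x
    rw [mag_of]
    have : (1 + NC.letter x - 1 - NC.letter x : NC (Fin r) ℚ) = 0 := by abel
    rw [this]
    exact OrdGE.zero
  have hnil : ∀ g : FreeGroup (Fin r), ((mag ℚ g : (NC (Fin r) ℚ)ˣ) : NC (Fin r) ℚ) [] = 1 :=
    fun g => mu_nil hμ g
  rw [← gam_one_succ]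
  have h1 : g ∈ Gam (fun _ : Fin r => 1) (c + 1) ↔
      OrdGE (fun _ => 1) (c + 1) (((mag ℚ g : (NC (Fin r) ℚ)ˣ) : NC (Fin r) ℚ) - 1) :=
    ⟨fun hg => ordGE_of_mem_gam' (fun _ => one_pos) hμ hg,
      fun hg => magnus_weighted _ (fun _ => one_pos) (mag ℚ) hμ (c + 1) g hg⟩
  rw [h1]
  constructor
  · intro h v hv hvc
    have h2 := h v (by rw [wt_one]; omega)
    obtain ⟨x, v, rfl⟩ := List.exists_cons_of_ne_nil hv
    rw [NC.sub_apply, NC.one_cons, sub_zero, mag_cast] at h2
    exact_mod_cast h2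
  · intro h w hw
    rw [wt_one] at hw
    cases w with
    | nil => rw [NC.sub_apply, hnil, NC.one_nil, sub_self]
    | cons x w =>
      rw [NC.sub_apply, NC.one_cons, sub_zero, mag_cast, h (x :: w) (by simp) (by omega)]
      simp

end Pool.Agent.Helper50.Comm
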